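import Pool.Agent.H.MP_079cdc_gt.A

set_option autoImplicit false

namespace Pool.Agent.Results.MP_079cdc_gt.Tree

open Set Topology Filter Metric Function Pool.Agent.H.MP_079cdc_gt

/-- Every isometry between two subsets extends to a surjective isometry of the whole space. -/
def AbsolutelyHomogeneous (X : Type) [MetricSpace X] : Prop :=
  ∀ (A B : Set X) (f : A ≃ᵢ B), ∃ g : X ≃ᵢ X, ∀ a : A, g a = f a

theorem btw {a b z : T} (h : dist z b = dist a b - dist a z) (c : T) :
    dist c z = max (dist c a - dist a z) (dist c b - dist z b) := by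
  refine le_antisymm (le_max_iff.2 ((four a b c z).imp (fun k => ?_) fun k => ?_))
    (max_le ?_ ?_) <;>
  linarith [dist_comm a c, dist_comm b c, dist_comm b z, dist_comm a z, dist_triangle c z a,
    dist_triangle c z b]

theorem one {G : Set (T × T)} (h : ∀ p ∈ G, ∀ q ∈ G, dist p.1 q.1 = dist p.2 q.2)
    (m : ∀ p : T × T, (∀ q ∈ G, dist p.1 q.1 = dist p.2 q.2) → p ∈ G) (x : T) :
    ∃ y, (x, y) ∈ G := by
  obtain ⟨o, n⟩ : G.Nonempty := nonempty_iff_ne_empty.2 fun e => (e ▸ m (x, x) (by simp [e]) :)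
  have c : ∀ p ∈ G, ∀ q ∈ G, ∃ z ∈ G,
      dist x z.1 = (dist x p.1 + dist x q.1 - dist p.1 q.1) / 2 := fun p a q b => by
    have t1 := dist_triangle x p.1 q.1
    have t2 := dist_triangle_right p.1 x q.1
    have t3 := dist_triangle_left p.1 q.1 x
    rw [dist_comm p.1 x] at t2
    obtain ⟨z, z1, z2⟩ := geo p.1 q.1 ((dist p.1 q.1 + dist x p.1 - dist x q.1) / 2) (by linarith)
      (by linarith)
    obtain ⟨w, w1, w2⟩ := geo p.2 q.2 ((dist p.1 q.1 + dist x p.1 - dist x q.1) / 2) (by linarith)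
      (by linarith [h p a q b])
    refine ⟨(z, w), m _ fun r d => ?_, ?_⟩
    · rw [dist_comm z, dist_comm w, btw (z1 ▸ z2), btw (w1 ▸ w2) r.2, z1, z2, w1, w2, h r d p a,
        h r d q b, ← h p a q b]
    · rw [btw (z1 ▸ z2), z1, z2]
      exact (max_eq_left (by linarith)).trans (by ring)
  have bd : BddBelow ((fun p => dist x p.1) '' G) := ⟨0, forall_mem_image.2 fun _ _ => dist_nonneg⟩
  obtain ⟨u, -, u1, u2⟩ := exists_seq_tendsto_sInf (Nonempty.image _ ⟨o, n⟩) bd
  choose a a1 a2 using u2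
  have le := fun p k => csInf_le bd (mem_image_of_mem _ (x := p) k)
  set r := sInf ((fun p : T × T => dist x p.1) '' G)
  obtain ⟨p, l⟩ := cauchySeq_tendsto_of_complete (Metric.cauchySeq_iff.2 fun ε e => by
    obtain ⟨N, k⟩ := eventually_atTop.1 (u1.eventually_lt_const (lt_add_of_pos_right r (half_pos e)))
    refine ⟨N, fun i b j d => ?_⟩
    obtain ⟨z, z1, z2⟩ := c _ (a1 i) _ (a1 j)
    rw [Prod.dist_eq, ← h _ (a1 i) _ (a1 j), max_self]
    linarith [le z z1, a2 i, a2 j, k i b, k j d] : CauchySeq a)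
  have pG : p ∈ G := m p fun q b => tendsto_nhds_unique (l.fst_nhds.dist tendsto_const_nhds)
    ((l.snd_nhds.dist tendsto_const_nhds).congr fun i => (h _ (a1 i) q b).symm)
  have e : dist x p.1 = r := tendsto_nhds_unique (tendsto_const_nhds.dist l.fst_nhds)
    (u1.congr fun i => (a2 i).symm)
  rcases eq_or_ne x p.1 with rfl | ne
  · exact ⟨_, pG⟩
  have nq : ∀ q ∈ G, q.2 ≠ p.2 → q.1 ≠ p.1 := fun q b d => dist_pos.1 (h q b p pG ▸ dist_pos.2 d)
  have g : ∀ q ∈ G, dist x q.1 = dist x p.1 + dist p.1 q.1 := fun q b => by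
    obtain ⟨z, z1, z2⟩ := c p pG q b
    linarith [le z z1, dist_triangle x p.1 q.1]
  obtain ⟨j, k⟩ : ∃ j, ∀ q ∈ G, q.2 ≠ p.2 → dir p.2 q.2 ≠ j := by
    by_contra! k
    choose q q1 q2 q3 using k
    obtain ⟨j, f⟩ := Finite.surjective_of_injective (f := fun j => dir p.1 (q j).1) (fun i j f => by
      rw [← q3 i, ← q3 j, dir_iff _ _ _ (q2 i) (q2 j), ← h _ (q1 i) _ (q1 j), ← h _ (q1 i) _ pG,
        ← h _ pG _ (q1 j)]
      exact (dir_iff _ _ _ (nq _ (q1 i) (q2 i)) (nq _ (q1 j) (q2 j))).1 f) (dir p.1 x)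
    exact ((dir_iff _ _ _ ne (nq _ (q1 j) (q2 j))).1 f.symm).ne (g _ (q1 j))
  obtain ⟨y, y1, y2⟩ := dir_ex p.2 j (dist_pos.2 ne)
  refine ⟨y, m _ fun q b => ?_⟩
  rw [g q b, h p pG q b, ← y2]
  rcases eq_or_ne q.2 p.2 with d | d
  · simp [d]
  exact (not_lt.1 fun f => k q b d (((dir_iff _ _ _ (dist_pos.1 (y2 ▸ dist_pos.2 ne)) d).2
    f).symm.trans y1)).antisymm (dist_triangle _ _ _)

theorem result : ∃ (X : Type) (_ : MetricSpace X), CompleteSpace X ∧ AbsolutelyHomogeneous X ∧
    ConnectedSpace X ∧ LocallyConnectedSpace X ∧ ¬ LocallyCompactSpace X := by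
  have pc : ∀ (a : T) r, IsPreconnected (ball a r) := fun a r =>
    isPreconnected_of_forall a fun b k => by
      choose! z z1 z2 using geo a b
      have d := dist_nonneg (x := a) (y := b)
      refine ⟨z '' Icc 0 (dist a b), forall_mem_image.2 fun t l => ?_, ⟨0, ⟨le_rfl, d⟩,
        (dist_eq_zero.1 (z1 0 le_rfl d)).symm⟩, ⟨_, ⟨d, le_rfl⟩, dist_eq_zero.1
          ((z2 _ d le_rfl).trans (sub_self _))⟩, isPreconnected_Icc.image _
        (LipschitzOnWith.of_dist_le_mul (K := 1) fun s l t n => ?_).continuousOn⟩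
      · exact mem_ball'.2 ((z1 t l.1 l.2).trans_lt (l.2.trans_lt (mem_ball'.1 k)))
      rw [btw (a := a) (b := b) (by rw [z1 t n.1 n.2, z2 t n.1 n.2]), dist_comm _ a, z1 t n.1 n.2,
        z2 t n.1 n.2, z1 s l.1 l.2, z2 s l.1 l.2, Real.dist_eq, abs_eq_max_neg]
      exact le_of_eq (by rw [NNReal.coe_one, one_mul]; congr 1 <;> ring)
  refine ⟨T, inferInstance, inferInstance, fun A B f => ?_, ?_,
    locallyConnectedSpace_of_connected_bases _ _ (fun _ => nhds_basis_ball) fun a r _ => pc a r,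
    fun h => ?_⟩
  · obtain ⟨G, g, m⟩ := zorn_subset_nonempty {G : Set (T × T) | ∀ p ∈ G, ∀ q ∈ G,
      dist p.1 q.1 = dist p.2 q.2} (fun c a b _ => ⟨⋃₀ c, by
        rintro p ⟨s, k, l⟩ q ⟨t, n, o⟩
        rcases b.total k n with e | e
        exacts [a n p (e l) q o, a k p l q (e o)], fun _ => subset_sUnion_of_mem⟩)
      (range fun a : A => (a.1, (f a).1)) (forall_mem_range.2 fun a => forall_mem_range.2 fun b =>
        (f.dist_eq a b).symm)
    have n : ∀ p : T × T, (∀ q ∈ G, dist p.1 q.1 = dist p.2 q.2) → p ∈ G := fun p k =>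
      m.le_of_ge (y := insert p G) (by
        rintro a (rfl | a) b (rfl | b)
        exacts [by simp, k _ b, by rw [dist_comm, k _ a, dist_comm], m.prop _ a _ b])
        (subset_insert _ _) (.inl rfl)
    choose u k using one m.prop n
    have i : Isometry u := .of_dist_eq fun x y => (m.prop _ (k x) _ (k y)).symm
    have e : ∀ p ∈ G, u p.1 = p.2 := fun p a =>
      dist_eq_zero.1 ((m.prop _ (k p.1) _ a).symm.trans (dist_self _))
    exact ⟨⟨.ofBijective u ⟨i.injective, fun y => (one (G := Prod.swap ⁻¹' G)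
      (fun p a q b => (m.prop _ a _ b).symm) (fun p a => n _ fun q b => (a q.swap b).symm) y).imp
        fun x a => e _ a⟩, i⟩, fun a => e _ (g ⟨a, rfl⟩)⟩
  · obtain ⟨a⟩ : Nonempty T := inferInstance
    exact { isPreconnected_univ := isPreconnected_of_forall a fun b _ => ⟨_, subset_univ _,
      mem_ball_self (by positivity), (lt_add_one _ : dist b a < _), pc a _⟩, toNonempty := ⟨a⟩ }
  obtain ⟨p⟩ : Nonempty T := inferInstance
  obtain ⟨K, k, l⟩ := exists_compact_mem_nhds p
  obtain ⟨ε, e, l⟩ := nhds_basis_closedBall.mem_iff.1 l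
  obtain ⟨b, -, d⟩ := dir_ex p none (half_pos e)
  have : ∀ t ∈ Ioo 0 (ε / 2), ∃ y, dist y p = ε / 2 + t ∧ dist y b = ε - t := fun t a => by
    obtain ⟨z, z1, z2⟩ := geo p b t a.1.le (by rw [dist_comm, d]; exact a.2.le)
    rw [dist_comm p b, d] at z2
    obtain ⟨j, j1, j2⟩ : ∃ j, j ≠ dir z p ∧ j ≠ dir z b := by
      by_contra! h
      have x := h none
      have y := h (some True)
      have w := h (some False)
      generalize dir z p = u, dir z b = v at x y w
      by_cases c : none = u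
      · subst c
        simpa using (y nofun).trans (w nofun).symm
      obtain rfl := x c
      simp only [reduceCtorEq, imp_false, not_not] at y w
      simpa using y.trans w.symm
    obtain ⟨y, rfl, y2⟩ := dir_ex z j (half_pos e)
    have n := dist_pos.1 (y2 ▸ half_pos e)
    have u := mt (dir_iff z y p n (dist_pos.1 (z1 ▸ a.1))).2 j1
    have v := mt (dir_iff z y b n (dist_pos.1 (z2 ▸ sub_pos.2 a.2)).symm).2 j2
    exact ⟨y, by linarith [dist_triangle y z p, dist_comm z p, not_lt.1 u],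
      by linarith [dist_triangle y z b, not_lt.1 v]⟩
  choose y y1 y2 using this
  obtain ⟨t, t1, t2⟩ := totallyBounded_iff.1 k.totallyBounded _ (half_pos e)
  choose c c1 c2 using fun s : Ioo 0 (ε / 2) => mem_iUnion₂.1 (t2 (l (a := y s s.2)
    ((y1 s s.2).trans_le (by linarith [s.2.2]))))
  have := t1.to_subtype
  have := (Ioo_infinite (half_pos e)).to_subtype
  obtain ⟨i, j, n, o⟩ := Finite.exists_ne_map_eq_of_infinite fun s => (⟨c s, c1 s⟩ : t)
  have := dist_triangle_right (y i i.2) (y j j.2) (c j)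
  have a : dist _ _ < _ := (Subtype.mk.inj o) ▸ c2 i
  have f : dist _ _ < _ := c2 j
  have i1 := y1 i i.2
  have i2 := y2 i i.2
  have j1 := y1 j j.2
  have j2 := y2 j j.2
  rcases (Subtype.coe_ne_coe.2 n).lt_or_gt with n | n
  · rcases four p (y j j.2) b (y i i.2) with g | g <;>
      rw [dist_comm p, dist_comm b, dist_comm p] at g <;> linarith [dist_comm (y i i.2) (y j j.2)]
  · rcases four p (y i i.2) b (y j j.2) with g | g <;>
      rw [dist_comm p, dist_comm b, dist_comm p] at g <;> linarith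

end Pool.Agent.Results.MP_079cdc_gt.Tree
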